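import Mathlib

/-!
# MP_b731ff_al: filtered algebras generated by finitely many elements whose Lie monomials are nil
-/

set_option autoImplicit false

namespace Pool.Agent.Helper76.PG

variable {k A : Type*} [Field k] [Ring A] [Algebra k A]

open Submodule

/-- a filtration generated by the set `X` in degree one -/
structure Filt (F : ℕ → Submodule k A) (X : Set A) : Prop where
  anti : ∀ n, F (n + 1) ≤ F n
  mul : ∀ a b, F a * F b ≤ F (a + b)
  zero : (⊤ : Submodule k A) ≤ F 0
  one_gen : F 0 ≤ span k {(1 : A)} ⊔ F 1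
  gen1 : F 1 ≤ span k X ⊔ F 2
  gen : ∀ w, F (w + 1) ≤ span k X * F w ⊔ F (w + 2)
  sub : X ⊆ F 1

/-- Lie monomials of degree `n + 1` -/
def Zs (X : Set A) : ℕ → Set A
  | 0 => X
  | n + 1 => {a | ∃ z ∈ Zs X n, ∃ x ∈ X, a = z * x - x * z}

theorem Zs_finite {X : Set A} (hX : X.Finite) (n : ℕ) : (Zs X n).Finite := by
  induction n with
  | zero => exact hX
  | succ n ih =>
    have : Zs X (n + 1) = (fun p : A × A => p.1 * p.2 - p.2 * p.1) '' (Zs X n ×ˢ X) := by
      ext a
      constructor
      · rintro ⟨z, hz, x, hx, rfl⟩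
        exact ⟨(z, x), ⟨hz, hx⟩, rfl⟩
      · rintro ⟨⟨z, x⟩, ⟨hz, hx⟩, rfl⟩
        exact ⟨z, hz, x, hx, rfl⟩
    rw [this]
    exact (ih.prod hX).image _

section

variable {F : ℕ → Submodule k A} {X : Set A} (hF : Filt F X)

include hF

theorem Filt.le {m n : ℕ} (h : m ≤ n) : F n ≤ F m := by
  induction h with
  | refl => exact le_rfl
  | step _ ih => exact (hF.anti _).trans ih

theorem Filt.mul_mem {a b : ℕ} {x y : A} (hx : x ∈ F a) (hy : y ∈ F b) : x * y ∈ F (a + b) :=
  hF.mul a b (Submodule.mul_mem_mul hx hy)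

theorem Filt.mem_zero (x : A) : x ∈ F 0 := hF.zero Submodule.mem_top

theorem Filt.pow_mem {a : ℕ} {x : A} (hx : x ∈ F a) (m : ℕ) : x ^ m ∈ F (a * m) := by
  induction m with
  | zero => simpa using hF.mem_zero 1
  | succ m ih =>
    rw [pow_succ, Nat.mul_succ]
    exact hF.mul_mem ih hx

theorem Filt.Zs_sub (n : ℕ) : Zs X n ⊆ F (n + 1) := by
  induction n with
  | zero => exact hF.sub
  | succ n ih =>
    rintro _ ⟨z, hz, x, hx, rfl⟩
    refine sub_mem (hF.mul_mem (ih hz) (hF.sub hx)) ?_
    have := hF.mul_mem (hF.sub hx) (ih hz)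
    rwa [Nat.add_comm 1 (n + 1)] at this

end

/-- the ideal generated by the Lie monomials of degree `n + 1`, modulo higher terms -/
def J (F : ℕ → Submodule k A) (X : Set A) (n w : ℕ) : Submodule k A :=
  span k {y | ∃ a b : ℕ, a + b + (n + 1) = w ∧ ∃ f ∈ F a, ∃ z ∈ Zs X n, ∃ g ∈ F b,
    y = f * z * g} ⊔ F (w + 1)

section

variable {F : ℕ → Submodule k A} {X : Set A} (hF : Filt F X)

theorem F_le_J (n w : ℕ) : F (w + 1) ≤ J F X n w := le_sup_right

theorem mem_J {n w a b : ℕ} (h : a + b + (n + 1) = w) {f z g : A} (hf : f ∈ F a) (hz : z ∈ Zs X n)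
    (hg : g ∈ F b) : f * z * g ∈ J F X n w :=
  Submodule.mem_sup_left (subset_span ⟨a, b, h, f, hf, z, hz, g, hg, rfl⟩)

include hF

theorem mul_J_mem {n w c : ℕ} {x y : A} (hx : x ∈ F c) (hy : y ∈ J F X n w) :
    x * y ∈ J F X n (c + w) := by
  have h : J F X n w ≤ (J F X n (c + w)).comap (LinearMap.mulLeft k x) := by
    refine sup_le (span_le.2 ?_) ?_
    · rintro _ ⟨a, b, hab, f, hf, z, hz, g, hg, rfl⟩
      rw [SetLike.mem_coe, Submodule.mem_comap, LinearMap.mulLeft_apply]
      have e : x * (f * z * g) = (x * f) * z * g := by simp only [mul_assoc]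
      rw [e]
      exact mem_J (by omega) (hF.mul_mem hx hf) hz hg
    · intro y hy
      rw [Submodule.mem_comap, LinearMap.mulLeft_apply]
      have := hF.mul_mem hx hy
      exact F_le_J _ _ (by rwa [← Nat.add_assoc] at this)
  exact h hy

theorem J_mul_mem {n w c : ℕ} {x y : A} (hy : y ∈ J F X n w) (hx : x ∈ F c) :
    y * x ∈ J F X n (w + c) := by
  have h : J F X n w ≤ (J F X n (w + c)).comap (LinearMap.mulRight k x) := by
    refine sup_le (span_le.2 ?_) ?_
    · rintro _ ⟨a, b, hab, f, hf, z, hz, g, hg, rfl⟩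
      rw [SetLike.mem_coe, Submodule.mem_comap, LinearMap.mulRight_apply]
      have e : f * z * g * x = f * z * (g * x) := by simp only [mul_assoc]
      rw [e]
      exact mem_J (by omega) hf hz (hF.mul_mem hg hx)
    · intro y hy
      rw [Submodule.mem_comap, LinearMap.mulRight_apply]
      have := hF.mul_mem hy hx
      refine F_le_J _ _ ?_
      rwa [show w + 1 + c = w + c + 1 by omega] at this
  exact h hy

theorem J_anti (n w : ℕ) : J F X n (w + 1) ≤ J F X n w := by
  refine sup_le (span_le.2 ?_) ((hF.anti _).trans (F_le_J _ _))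
  rintro _ ⟨a, b, hab, f, hf, z, hz, g, hg, rfl⟩
  rw [SetLike.mem_coe]
  rcases Nat.eq_zero_or_pos a with ha | ha
  · rcases Nat.eq_zero_or_pos b with hb | hb
    · -- `w = n`
      have h1 : f * z * g ∈ F (a + (n + 1) + b) := hF.mul_mem (hF.mul_mem hf (hF.Zs_sub n hz)) hg
      exact F_le_J _ _ (by rwa [show a + (n + 1) + b = w + 1 by omega] at h1)
    · exact mem_J (a := a) (b := b - 1) (by omega) hf hz (hF.le (by omega) hg)
  · exact mem_J (a := a - 1) (b := b) (by omega) (hF.le (by omega) hf) hz hg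

theorem Zs_mem_J (n : ℕ) {z : A} (hz : z ∈ Zs X n) : z ∈ J F X n (n + 1) := by
  have := mem_J (F := F) (a := 0) (b := 0) (n := n) (w := n + 1) (by omega) (hF.mem_zero 1) hz
    (hF.mem_zero 1)
  simpa using this

/-- Lie monomials of degree `n + 1` are central modulo `J (n+1)` -/
theorem comm_mem (n : ℕ) {z : A} (hz : z ∈ Zs X n) (c : ℕ) :
    ∀ a ∈ F c, z * a - a * z ∈ J F X (n + 1) (c + (n + 1)) := by
  have hzF := hF.Zs_sub n hz
  -- degree one
  have h1 : ∀ a ∈ F 1, z * a - a * z ∈ J F X (n + 1) (1 + (n + 1)) := by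
    intro a ha
    have h : F 1 ≤ (J F X (n + 1) (1 + (n + 1))).comap
        (LinearMap.mulLeft k z - LinearMap.mulRight k z) := by
      refine hF.gen1.trans (sup_le (span_le.2 ?_) ?_)
      · intro x hx
        rw [SetLike.mem_coe, Submodule.mem_comap]
        show z * x - x * z ∈ _
        have := Zs_mem_J hF (n + 1) (z := z * x - x * z) ⟨z, hz, x, hx, rfl⟩
        rwa [show n + 1 + 1 = 1 + (n + 1) by omega] at this
      · intro y hy
        rw [Submodule.mem_comap]
        show z * y - y * z ∈ _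
        refine F_le_J _ _ (sub_mem ?_ ?_)
        · have := hF.mul_mem hzF hy
          rwa [show n + 1 + 2 = 1 + (n + 1) + 1 by omega] at this
        · have := hF.mul_mem hy hzF
          rwa [show 2 + (n + 1) = 1 + (n + 1) + 1 by omega] at this
    exact h ha
  have h0 : ∀ a ∈ F 0, z * a - a * z ∈ J F X (n + 1) (0 + (n + 1)) := by
    intro a ha
    obtain ⟨b, hb, a', ha', rfl⟩ := Submodule.mem_sup.1 (hF.one_gen ha)
    obtain ⟨t, rfl⟩ := Submodule.mem_span_singleton.1 hb
    have e : z * (t • (1 : A) + a') - (t • (1 : A) + a') * z = z * a' - a' * z := by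
      rw [mul_add, add_mul, mul_smul_comm, smul_mul_assoc, mul_one, one_mul]
      abel
    rw [e]
    have := h1 a' ha'
    refine J_anti hF _ _ ?_
    rwa [show 0 + (n + 1) + 1 = 1 + (n + 1) by omega]
  induction c with
  | zero => exact h0
  | succ c ih =>
    rcases Nat.eq_zero_or_pos c with hc | hc
    · subst hc
      exact h1
    · intro a ha
      have h : F (c + 1) ≤ (J F X (n + 1) (c + 1 + (n + 1))).comap
          (LinearMap.mulLeft k z - LinearMap.mulRight k z) := by
        refine (hF.gen c).trans (sup_le ?_ ?_)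
        · rw [← Submodule.span_eq (F c), Submodule.span_mul_span, span_le]
          rintro _ ⟨x, hx, a', ha', rfl⟩
          have ha'' : a' ∈ F c := ha'
          rw [SetLike.mem_coe, Submodule.mem_comap]
          show z * (x * a') - (x * a') * z ∈ _
          have e : z * (x * a') - (x * a') * z
              = (z * x - x * z) * a' + x * (z * a' - a' * z) := by noncomm_ring
          rw [e]
          refine add_mem ?_ ?_
          · have := J_mul_mem hF (Zs_mem_J hF (n + 1) (z := z * x - x * z) ⟨z, hz, x, hx, rfl⟩)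
              ha''
            rwa [show n + 1 + 1 + c = c + 1 + (n + 1) by omega] at this
          · have := mul_J_mem hF (hF.sub hx) (ih a' ha'')
            rwa [show 1 + (c + (n + 1)) = c + 1 + (n + 1) by omega] at this
        · intro y hy
          rw [Submodule.mem_comap]
          show z * y - y * z ∈ _
          refine F_le_J _ _ (sub_mem ?_ ?_)
          · have := hF.mul_mem hzF hy
            rwa [show n + 1 + (c + 2) = c + 1 + (n + 1) + 1 by omega] at this
          · have := hF.mul_mem hy hzF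
            rwa [show c + 2 + (n + 1) = c + 1 + (n + 1) + 1 by omega] at this
      exact h ha

/-- products of Lie monomials of the same degree may be permuted modulo `J (n+1)` -/
theorem perm_mem (n : ℕ) {l l' : List A} (h : l.Perm l') (hl : ∀ z ∈ l, z ∈ Zs X n) :
    l.prod - l'.prod ∈ J F X (n + 1) ((n + 1) * l.length) := by
  induction h with
  | nil => simp
  | cons x h ih =>
    rename_i l₁ l₂
    have h1 := ih (fun z hz => hl z (List.mem_cons_of_mem _ hz))
    have h2 := mul_J_mem hF (hF.Zs_sub n (hl x List.mem_cons_self)) h1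
    rw [List.prod_cons, List.prod_cons, ← mul_sub, List.length_cons]
    rwa [show n + 1 + (n + 1) * l₁.length = (n + 1) * (l₁.length + 1) by ring] at h2
  | swap x y l =>
    have hx : x ∈ Zs X n := hl x (by simp)
    have hy : y ∈ Zs X n := hl y (by simp)
    have h1 := comm_mem hF n hy (n + 1) x (hF.Zs_sub n hx)
    have h2 : l.prod ∈ F ((n + 1) * l.length) := by
      have h3 : ∀ l : List A, (∀ z ∈ l, z ∈ Zs X n) → l.prod ∈ F ((n + 1) * l.length) := by
        intro l
        induction l with
        | nil => intro _; simpa using hF.mem_zero 1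
        | cons a l ih =>
          intro hl
          rw [List.prod_cons, List.length_cons]
          have := hF.mul_mem (hF.Zs_sub n (hl a List.mem_cons_self))
            (ih (fun z hz => hl z (List.mem_cons_of_mem _ hz)))
          rwa [show n + 1 + (n + 1) * l.length = (n + 1) * (l.length + 1) by ring] at this
      exact h3 l (fun z hz => hl z (by simp [hz]))
    have h4 := J_mul_mem hF h1 h2
    have e : (y :: x :: l).prod - (x :: y :: l).prod = (y * x - x * y) * l.prod := by
      simp only [List.prod_cons]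
      noncomm_ring
    rw [e]
    rwa [show n + 1 + (n + 1) + (n + 1) * l.length = (n + 1) * (y :: x :: l).length by
      simp only [List.length_cons]; ring] at h4
  | trans h₁ h₂ ih₁ ih₂ =>
    rename_i l₁ l₂ l₃
    have a1 := ih₁ hl
    have a2 := ih₂ (fun z hz => hl z (h₁.mem_iff.2 hz))
    rw [← h₁.length_eq] at a2
    have := add_mem a1 a2
    rwa [sub_add_sub_cancel] at this

theorem prod_mem (n : ℕ) (l : List A) (hl : ∀ z ∈ l, z ∈ Zs X n) :
    l.prod ∈ F ((n + 1) * l.length) := by
  induction l with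
  | nil => simpa using hF.mem_zero 1
  | cons a l ih =>
    rw [List.prod_cons, List.length_cons]
    have := hF.mul_mem (hF.Zs_sub n (hl a List.mem_cons_self))
      (ih (fun z hz => hl z (List.mem_cons_of_mem _ hz)))
    rwa [show n + 1 + (n + 1) * l.length = (n + 1) * (l.length + 1) by ring] at this

/-- long products of nil Lie monomials of the same degree vanish modulo `J (n+1)` -/
theorem long_prod (hX : X.Finite) (n : ℕ)
    (hnil : ∀ z ∈ Zs X n, ∃ K : ℕ, z ^ K ∈ F ((n + 1) * K + 1)) :
    ∃ m : ℕ, ∀ l : List A, (∀ z ∈ l, z ∈ Zs X n) → l.length = m →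
      l.prod ∈ J F X (n + 1) ((n + 1) * m) := by
  classical
  have hZ := Zs_finite hX n
  -- a common exponent
  obtain ⟨K, hK⟩ : ∃ K : ℕ, ∀ z ∈ Zs X n, z ^ K ∈ F ((n + 1) * K + 1) := by
    choose! K hK using hnil
    obtain ⟨B, hB⟩ := (hZ.image K).bddAbove
    refine ⟨B, fun z hz => ?_⟩
    have h1 : K z ≤ B := hB ⟨z, hz, rfl⟩
    have h2 := hF.mul_mem (hK z hz) (hF.pow_mem (hF.Zs_sub n hz) (B - K z))
    rw [← pow_add, Nat.add_sub_cancel' h1] at h2
    have e : (n + 1) * K z + 1 + (n + 1) * (B - K z) = (n + 1) * B + 1 := by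
      obtain ⟨t, rfl⟩ := Nat.exists_eq_add_of_le h1
      rw [Nat.add_sub_cancel_left]
      ring
    rwa [e] at h2
  refine ⟨hZ.toFinset.card * K + 1, fun l hl hlen => ?_⟩
  -- pigeonhole
  obtain ⟨z, hz, hcount⟩ : ∃ z ∈ Zs X n, K ≤ l.count z := by
    by_contra hcon
    push Not at hcon
    have h1 : ∑ z ∈ hZ.toFinset, (l : Multiset A).count z = Multiset.card (l : Multiset A) :=
      Multiset.sum_count_eq_card (fun z hz => hZ.mem_toFinset.2 (hl z hz))
    rw [Multiset.coe_card] at h1
    have h2 : ∑ z ∈ hZ.toFinset, (l : Multiset A).count z ≤ ∑ _z ∈ hZ.toFinset, K :=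
      Finset.sum_le_sum (fun z hz => by
        rw [Multiset.coe_count]
        exact (hcon z (hZ.mem_toFinset.1 hz)).le)
    rw [Finset.sum_const, smul_eq_mul] at h2
    omega
  -- move the factors `z` to the left
  have hperm : l.Perm (List.replicate (l.count z) z ++ l.filter (fun y => ¬ (y = z))) := by
    have h1 := List.filter_append_perm (fun y => decide (y = z)) l
    have h2 : l.filter (fun y => decide (y = z)) = List.replicate (l.count z) z := by
      exact List.filter_eq z
    rw [h2] at h1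
    refine h1.symm.trans ?_
    refine List.Perm.append_left _ (List.Perm.of_eq ?_)
    congr 1
    funext y
    simp
  have h1 := perm_mem hF n hperm hl
  rw [hlen] at h1
  have h2 : (List.replicate (l.count z) z ++ l.filter (fun y => ¬ (y = z))).prod
      ∈ J F X (n + 1) ((n + 1) * (hZ.toFinset.card * K + 1)) := by
    rw [List.prod_append, List.prod_replicate]
    have h3 : z ^ l.count z ∈ F ((n + 1) * l.count z + 1) := by
      have h4 := hF.mul_mem (hK z hz) (hF.pow_mem (hF.Zs_sub n hz) (l.count z - K))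
      rw [← pow_add, Nat.add_sub_cancel' hcount] at h4
      have e : (n + 1) * K + 1 + (n + 1) * (l.count z - K) = (n + 1) * l.count z + 1 := by
        obtain ⟨t, ht⟩ := Nat.exists_eq_add_of_le hcount
        rw [ht, Nat.add_sub_cancel_left]
        ring
      rwa [e] at h4
    have h5 : (l.filter (fun y => ¬ (y = z))).prod
        ∈ F ((n + 1) * (l.filter (fun y => ¬ (y = z))).length) :=
      prod_mem hF n _ (fun y hy => hl y (List.mem_of_mem_filter hy))
    have h6 := hF.mul_mem h3 h5
    have hlen2 : l.count z + (l.filter (fun y => ¬ (y = z))).length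
        = hZ.toFinset.card * K + 1 := by
      have := hperm.length_eq
      rw [List.length_append, List.length_replicate, hlen] at this
      exact this.symm
    refine F_le_J _ _ ?_
    have e : (n + 1) * l.count z + 1 + (n + 1) * (l.filter (fun y => ¬ (y = z))).length
        = (n + 1) * (hZ.toFinset.card * K + 1) + 1 := by
      rw [← hlen2]
      ring
    rwa [e] at h6
  have := add_mem h1 h2
  rwa [sub_add_cancel] at this

/-- the step of the induction -/
theorem J_step (hX : X.Finite) (n : ℕ)
    (hnil : ∀ z ∈ Zs X n, ∃ K : ℕ, z ^ K ∈ F ((n + 1) * K + 1))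
    (hn : ∃ N, ∀ w, N ≤ w → F w ≤ J F X n w) : ∃ N, ∀ w, N ≤ w → F w ≤ J F X (n + 1) w := by
  obtain ⟨N, hN⟩ := hn
  obtain ⟨m, hm⟩ := long_prod hF hX n hnil
  -- the span of the products of lists of length `j`
  let Y : ℕ → Submodule k A := fun j =>
    span k {y | ∃ l : List A, (∀ z ∈ l, z ∈ Zs X n) ∧ l.length = j ∧ y = l.prod}
  have hY1 : ∀ w, N ≤ w → n + 1 ≤ w → ∀ x ∈ F w, x ∈
      span k {y | ∃ z ∈ Zs X n, ∃ g ∈ F (w - (n + 1)), y = z * g} ⊔ J F X (n + 1) w := by
    intro w hw hnw x hx
    refine (?_ : F w ≤ _) hx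
    refine (hN w hw).trans (sup_le (span_le.2 ?_) ?_)
    · rintro _ ⟨a, b, hab, f, hf, z, hz, g, hg, rfl⟩
      have e : f * z * g = z * (f * g) - (z * f - f * z) * g := by noncomm_ring
      rw [SetLike.mem_coe, e]
      refine sub_mem (Submodule.mem_sup_left (subset_span ⟨z, hz, f * g, ?_, rfl⟩))
        (Submodule.mem_sup_right ?_)
      · have := hF.mul_mem hf hg
        rwa [show a + b = w - (n + 1) by omega] at this
      · have := J_mul_mem hF (comm_mem hF n hz a f hf) hg
        rwa [show a + (n + 1) + b = w by omega] at this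
    · exact (F_le_J _ _).trans le_sup_right
  have hYm : ∀ j w, N + j * (n + 1) ≤ w → ∀ x ∈ F w, x ∈
      span k {y | ∃ l : List A, (∀ z ∈ l, z ∈ Zs X n) ∧ l.length = j ∧
        ∃ g ∈ F (w - j * (n + 1)), y = l.prod * g} ⊔ J F X (n + 1) w := by
    intro j
    induction j with
    | zero =>
      intro w _ x hx
      refine Submodule.mem_sup_left (subset_span ⟨[], by simp, rfl, x, ?_, by simp⟩)
      simpa using hx
    | succ j ih =>
      intro w hw x hx
      have hw1 : N + j * (n + 1) ≤ w - (n + 1) := by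
        rw [Nat.succ_mul] at hw
        omega
      have hw2 : n + 1 ≤ w := by
        rw [Nat.succ_mul] at hw
        omega
      have hw3 : N ≤ w := by omega
      suffices key : span k {y | ∃ z ∈ Zs X n, ∃ g ∈ F (w - (n + 1)), y = z * g} ⊔
          J F X (n + 1) w ≤ span k {y | ∃ l : List A, (∀ z ∈ l, z ∈ Zs X n) ∧ l.length = j + 1 ∧
          ∃ g ∈ F (w - (j + 1) * (n + 1)), y = l.prod * g} ⊔ J F X (n + 1) w from
        key (hY1 w hw3 hw2 x hx)
      refine sup_le (span_le.2 ?_) le_sup_right
      rintro _ ⟨z, hz, g, hg, rfl⟩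
      have h1 := ih (w - (n + 1)) hw1 g hg
      obtain ⟨u, hu, v, hv, rfl⟩ := Submodule.mem_sup.1 h1
      rw [SetLike.mem_coe, mul_add z u v]
      refine Submodule.add_mem _ ?_ (Submodule.mem_sup_right ?_)
      · have h2 : span k {y | ∃ l : List A, (∀ z ∈ l, z ∈ Zs X n) ∧ l.length = j ∧
            ∃ g ∈ F (w - (n + 1) - j * (n + 1)), y = l.prod * g} ≤
            (span k {y | ∃ l : List A, (∀ z ∈ l, z ∈ Zs X n) ∧ l.length = j + 1 ∧
            ∃ g ∈ F (w - (j + 1) * (n + 1)), y = l.prod * g} ⊔ J F X (n + 1) w).comap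
              (LinearMap.mulLeft k z) := by
          refine span_le.2 ?_
          rintro _ ⟨l, hl, hlen, g, hg, rfl⟩
          rw [SetLike.mem_coe, Submodule.mem_comap, LinearMap.mulLeft_apply]
          refine Submodule.mem_sup_left (subset_span ⟨z :: l, ?_, ?_, g, ?_, ?_⟩)
          · intro y hy
            rcases List.mem_cons.1 hy with rfl | hy
            · exact hz
            · exact hl y hy
          · rw [List.length_cons, hlen]
          · have e : w - (n + 1) - j * (n + 1) = w - (j + 1) * (n + 1) := by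
              rw [Nat.succ_mul, Nat.sub_sub, Nat.add_comm (n + 1)]
            rwa [e] at hg
          · rw [List.prod_cons, mul_assoc]
        exact h2 hu
      · have := mul_J_mem hF (hF.Zs_sub n hz) hv
        rwa [show n + 1 + (w - (n + 1)) = w by omega] at this
  refine ⟨N + m * (n + 1), fun w hw x hx => ?_⟩
  refine (?_ : span k {y | ∃ l : List A, (∀ z ∈ l, z ∈ Zs X n) ∧ l.length = m ∧
        ∃ g ∈ F (w - m * (n + 1)), y = l.prod * g} ⊔ J F X (n + 1) w ≤ J F X (n + 1) w)
        (hYm m w hw x hx)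
  refine sup_le (span_le.2 ?_) le_rfl
  rintro _ ⟨l, hl, hlen, g, hg, rfl⟩
  have h1 := J_mul_mem hF (hm l hl hlen) hg
  have e : (n + 1) * m + (w - m * (n + 1)) = w := by
    rw [Nat.mul_comm (n + 1) m]
    omega
  rwa [e] at h1

/-- **the main lemma on filtered algebras** -/
theorem stable (hX : X.Finite)
    (hnil : ∀ n, ∀ z ∈ Zs X n, ∃ K : ℕ, z ^ K ∈ F ((n + 1) * K + 1))
    (hlie : ∃ n, Zs X n ⊆ F (n + 2)) : ∃ N, ∀ w, N ≤ w → F w ≤ F (w + 1) := by
  have h0 : ∃ N, ∀ w, N ≤ w → F w ≤ J F X 0 w := by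
    refine ⟨1, fun w hw => ?_⟩
    obtain ⟨w, rfl⟩ : ∃ w', w = w' + 1 := ⟨w - 1, by omega⟩
    refine (hF.gen w).trans (sup_le ?_ (F_le_J _ _))
    rw [← Submodule.span_eq (F w), Submodule.span_mul_span, span_le]
    rintro _ ⟨x, hx, a, ha, rfl⟩
    have ha' : a ∈ F w := ha
    have := mem_J (F := F) (X := X) (n := 0) (a := 0) (b := w) (w := w + 1) (by omega)
      (hF.mem_zero 1) hx ha'
    rw [one_mul] at this
    exact this
  have hall : ∀ n, ∃ N, ∀ w, N ≤ w → F w ≤ J F X n w := by
    intro n
    induction n with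
    | zero => exact h0
    | succ n ih => exact J_step hF hX n (hnil n) ih
  obtain ⟨n, hn⟩ := hlie
  obtain ⟨N, hN⟩ := hall n
  refine ⟨N, fun w hw => (hN w hw).trans (sup_le (span_le.2 ?_) le_rfl)⟩
  rintro _ ⟨a, b, hab, f, hf, z, hz, g, hg, rfl⟩
  have := hF.mul_mem (hF.mul_mem hf (hn hz)) hg
  rwa [show a + (n + 2) + b = w + 1 by omega] at this

end

end Pool.Agent.Helper76.PG
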