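import Pool.Agent.Helper76.PG.Nil

/-!
# MP_b731ff_al: the growth of infinite residually finite `p`-groups
-/

set_option autoImplicit false

namespace Pool.Agent.Helper76.PG

open Submodule
open scoped Pointwise

section

variable {k A H : Type*} [Field k] [Ring A] [Algebra k A] [Group H] {ι : H →* A}

/-- functionals which vanish on the `(n+1)`-st term of the filtration are polynomials -/
theorem pol_of_functional (hι : span k (Set.range ι) = ⊤) (n : ℕ) :
    ∀ ℓ : A →ₗ[k] k, (∀ a ∈ fil k ι (n + 1), ℓ a = 0) → Pol n (fun h => ℓ (ι h)) := by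
  induction n with
  | zero =>
    intro ℓ hℓ h
    have h1 := hℓ _ (sub_one_mem_fil (k := k) hι h)
    rw [map_sub] at h1
    show ℓ (ι h) = ℓ (ι 1)
    rw [map_one]
    exact sub_eq_zero.1 h1
  | succ n ih =>
    intro ℓ hℓ g
    have e : (fun h => ℓ (ι (g * h)) - ℓ (ι h))
        = fun h => (ℓ ∘ₗ LinearMap.mulLeft k (ι g - 1)) (ι h) := by
      funext h
      show ℓ (ι (g * h)) - ℓ (ι h) = ℓ ((ι g - 1) * ι h)
      rw [← map_sub, map_mul, sub_mul, one_mul]
    show Pol n (fun h => ℓ (ι (g * h)) - ℓ (ι h))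
    rw [e]
    refine ih _ (fun a ha => ?_)
    show ℓ ((ι g - 1) * a) = 0
    refine hℓ _ ?_
    have := fil_mul hι 1 (n + 1) (Submodule.mul_mem_mul (sub_one_mem_fil (k := k) hι g) ha)
    rwa [Nat.add_comm 1 (n + 1)] at this

/-- the terms of the filtration have finite codimension -/
theorem exists_fg {F : ℕ → Submodule k A} {X : Set A} (hF : Filt F X) (hX : X.Finite) (w : ℕ) :
    ∃ U : Submodule k A, U.FG ∧ ⊤ ≤ U ⊔ F w := by
  have h1 : ∀ w, ∃ U : Submodule k A, U.FG ∧ F w ≤ U ⊔ F (w + 1) := by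
    intro w
    induction w with
    | zero => exact ⟨span k {1}, Submodule.fg_span_singleton _, hF.one_gen⟩
    | succ w ih =>
      obtain ⟨U, hU, hUw⟩ := ih
      refine ⟨span k X * U, (Submodule.fg_span hX).mul hU, ?_⟩
      refine (hF.gen w).trans (sup_le ?_ le_sup_right)
      refine (mul_le_mul' le_rfl hUw).trans ?_
      rw [Submodule.mul_sup]
      refine sup_le_sup le_rfl ?_
      refine (mul_le_mul' (span_le.2 hF.sub) le_rfl).trans ?_
      have := hF.mul 1 (w + 1)
      rwa [show 1 + (w + 1) = w + 1 + 1 by omega] at this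
  induction w with
  | zero => exact ⟨⊥, Submodule.fg_bot, by rw [bot_sup_eq]; exact hF.zero⟩
  | succ w ih =>
    obtain ⟨U, hU, hUw⟩ := ih
    obtain ⟨V, hV, hVw⟩ := h1 w
    refine ⟨U ⊔ V, hU.sup hV, hUw.trans ?_⟩
    rw [sup_assoc]
    exact sup_le_sup le_rfl hVw

theorem map_fil {B Q : Type*} [Ring B] [Algebra k B] [Group Q] {κ : Q →* B} (f : A →ₐ[k] B)
    (q : H → Q) (hf : ∀ h, f (ι h) = κ (q h)) (w : ℕ) :
    (fil k ι w).map f.toLinearMap ≤ fil k κ w := by
  induction w with
  | zero => exact le_top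
  | succ w ih =>
    show (aug k ι * fil k ι w).map f.toLinearMap ≤ aug k κ * fil k κ w
    rw [Submodule.map_mul]
    refine mul_le_mul' ?_ ih
    rw [aug, Submodule.map_span, span_le]
    rintro _ ⟨_, ⟨g, rfl⟩, rfl⟩
    refine subset_span ⟨q g, ?_⟩
    show f (ι g - 1) = κ (q g) - 1
    rw [map_sub, map_one, hf]

end

theorem span_of (k : Type*) [Field k] (H : Type*) [Group H] :
    span k (Set.range (MonoidAlgebra.of k H)) = ⊤ := by
  rw [eq_top_iff]
  intro x _
  induction x using MonoidAlgebra.induction_on with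
  | of g => exact subset_span ⟨g, rfl⟩
  | add x y hx hy => exact Submodule.add_mem _ (hx trivial) (hy trivial)
  | smul r x hx => exact Submodule.smul_mem _ r (hx trivial)

/-- **the growth gap**: an infinite residually finite `p`-group generated by the finite set `S`
has at least `2 ^ m` elements in `S ^ n` if `m * m ≤ n` -/
theorem gap {H : Type*} [Group H] [DecidableEq H] [Infinite H] (p : ℕ) [hp : Fact p.Prime]
    (hpg : IsPGroup p H)
    (hRF : ∀ g : H, g ≠ 1 → ∃ N : Subgroup H, N.Normal ∧ N.index ≠ 0 ∧ g ∉ N)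
    {S : Finset H} (h1 : (1 : H) ∈ S) (hgen : Subgroup.closure (S : Set H) = ⊤) (m n : ℕ)
    (hmn : m * m ≤ n) : 2 ^ m ≤ (S ^ n).card := by
  classical
  set k := ZMod p with hk
  set A := MonoidAlgebra k H with hA
  set ι : H →* A := MonoidAlgebra.of k H with hι0
  have hι : span k (Set.range ι) = ⊤ := span_of k H
  have hF := filt (k := k) hι (S : Set H) hgen
  have hX : ((fun s => ι s - 1) '' (S : Set H)).Finite := S.finite_toSet.image _
  have hchar : CharP A p := by
    have : CharP k p := ZMod.charP p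
    exact charP_of_injective_algebraMap (algebraMap k A).injective p
  by_cases hlie : ∃ n, Zs ((fun s => ι s - 1) '' (S : Set H)) n ⊆ fil k ι (n + 2)
  · -- the filtration is stable: contradiction
    exfalso
    obtain ⟨N, hN⟩ := stable hF hX
      (fun n => nil_of_pgroup p hpg hι (S : Set H) hgen n) hlie
    obtain ⟨U, hU, hUN⟩ := exists_fg hF hX N
    have hfin : Finite (A ⧸ fil k ι N) := by
      have : Module.Finite k (A ⧸ fil k ι N) := by
        refine ⟨?_⟩
        have h2 : (⊤ : Submodule k (A ⧸ fil k ι N)) = U.map (fil k ι N).mkQ := by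
          rw [eq_comm, eq_top_iff]
          intro x _
          obtain ⟨a, rfl⟩ := Submodule.mkQ_surjective _ x
          obtain ⟨u, hu, v, hv, rfl⟩ := Submodule.mem_sup.1 (hUN (Submodule.mem_top (x := a)))
          refine ⟨u, hu, ?_⟩
          rw [map_add, (Submodule.Quotient.mk_eq_zero _).2 hv |> fun h => (h :
            (fil k ι N).mkQ v = 0), add_zero]
        rw [h2]
        exact hU.map _
      exact Module.finite_of_finite k
    obtain ⟨g, h, hgh, heq⟩ : ∃ g h : H, g ≠ h ∧
        (fil k ι N).mkQ (ι g) = (fil k ι N).mkQ (ι h) := by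
      by_contra hcon
      push Not at hcon
      exact not_injective_infinite_finite (fun g : H => (fil k ι N).mkQ (ι g))
        (fun a b hab => by
          by_contra hne
          exact hcon a b hne hab)
    set x := h⁻¹ * g with hx
    have hx1 : x ≠ 1 := by
      intro h0
      exact hgh (inv_mul_eq_one.1 h0).symm
    have hxN : ι x - 1 ∈ fil k ι N := by
      have h2 : ι g - ι h ∈ fil k ι N := by
        rw [← Submodule.Quotient.mk_eq_zero, Submodule.Quotient.mk_sub, sub_eq_zero]
        exact heq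
      have h3 := smul_mem_fil hι N h⁻¹ h2
      have e : ι h⁻¹ * (ι g - ι h) = ι x - 1 := by
        rw [mul_sub, ← map_mul, ← map_mul, inv_mul_cancel, map_one]
      rwa [e] at h3
    have hxw : ∀ w, ι x - 1 ∈ fil k ι w := by
      intro w
      rcases le_total w N with hw | hw
      · exact hF.le hw hxN
      · induction w, hw using Nat.le_induction with
        | base => exact hxN
        | succ w hw ih => exact hN w hw ih
    obtain ⟨N₀, hN₀, hN₀i, hxN₀⟩ := hRF x hx1
    have : N₀.FiniteIndex := ⟨hN₀i⟩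
    have hQfin : Finite (H ⧸ N₀) := Subgroup.finite_quotient_of_finiteIndex
    let B := MonoidAlgebra k (H ⧸ N₀)
    let κ : (H ⧸ N₀) →* B := MonoidAlgebra.of k (H ⧸ N₀)
    have hκ : span k (Set.range κ) = ⊤ := span_of k _
    have hBfin : Module.Finite k B := by
      refine ⟨?_⟩
      rw [← hκ]
      exact Submodule.fg_span (Set.toFinite _)
    have hpq : IsPGroup p (H ⧸ N₀) := hpg.to_quotient N₀
    obtain ⟨W, hW⟩ := exists_fil_eq_bot (k := k) p (by rw [hk, Nat.card_zmod]) hpq hκ
    let f : A →ₐ[k] B := MonoidAlgebra.mapDomainAlgHom k k (QuotientGroup.mk' N₀)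
    have hf : ∀ h, f (ι h) = κ (QuotientGroup.mk' N₀ h) := by
      intro h
      exact MonoidAlgebra.mapDomain_single
    have h2 := map_fil (k := k) (κ := κ) f (QuotientGroup.mk' N₀) hf W
      ⟨_, hxw W, rfl⟩
    rw [hW, Submodule.mem_bot] at h2
    have h3 : κ (QuotientGroup.mk' N₀ x) = κ 1 := by
      have h4 : f (ι x - 1) = 0 := h2
      rw [map_sub, map_one, hf] at h4
      rw [map_one]
      exact sub_eq_zero.1 h4
    have h5 := MonoidAlgebra.of_injective h3
    exact hxN₀ ((QuotientGroup.eq_one_iff x).1 h5)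
  · -- growth
    push Not at hlie
    have hg : ∀ n, ∃ g : H, ι g - 1 ∈ fil k ι (n + 1) ∧ ι g - 1 ∉ fil k ι (n + 2) := by
      intro n
      obtain ⟨z, hz, hzn⟩ := Set.not_subset.1 (hlie n)
      obtain ⟨g, hg⟩ := exists_comm hι (S : Set H) hgen n z hz
      have hzF := hF.Zs_sub n hz
      refine ⟨g, ?_, ?_⟩
      · have := add_mem (hF.anti _ hg) hzF
        rwa [sub_add_cancel] at this
      · intro hcon
        apply hzn
        have := sub_mem hcon hg
        rwa [sub_sub_cancel] at this
    choose g hg1 hg2 using hg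
    have hℓ : ∀ n, ∃ ℓ : A →ₗ[k] k, (∀ a ∈ fil k ι (n + 2), ℓ a = 0) ∧ ℓ (ι (g n) - 1) = 1 := by
      intro n
      obtain ⟨ℓ, hℓ1, hℓ2⟩ := Submodule.exists_dual_map_eq_bot_of_notMem (hg2 n) inferInstance
      refine ⟨(ℓ (ι (g n) - 1))⁻¹ • ℓ, ?_, ?_⟩
      · intro a ha
        have h2 : ℓ a ∈ (fil k ι (n + 2)).map ℓ := ⟨a, ha, rfl⟩
        rw [hℓ2, Submodule.mem_bot] at h2
        rw [LinearMap.smul_apply, h2, smul_zero]
      · rw [LinearMap.smul_apply, smul_eq_mul, inv_mul_cancel₀ hℓ1]
    choose ℓ hℓ1 hℓ2 using hℓ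
    refine two_pow_le (k := k) (φ := fun i h => ℓ i (ι h - 1)) (g := g) h1 hgen ?_ ?_ ?_ m n hmn
    · intro i
      have h2 := pol_of_functional hι (i + 1) (ℓ i) (hℓ1 i)
      have e : (fun h => ℓ i (ι h - 1)) = fun h => ℓ i (ι h) + (- ℓ i 1) := by
        funext h
        rw [map_sub, sub_eq_add_neg]
      show Pol (i + 1) (fun h => ℓ i (ι h - 1))
      rw [e]
      exact h2.add (Pol.const _ _)
    · intro i j hij h
      show ℓ i (ι (g j * h) - 1) = ℓ i (ι h - 1)
      have e : ι (g j * h) - 1 = (ι (g j) - 1) * ι h + (ι h - 1) := by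
        rw [map_mul, sub_mul, one_mul]
        abel
      have h2 : (ι (g j) - 1) * ι h ∈ fil k ι (i + 2) := by
        have := hF.mul_mem (hg1 j) (hF.mem_zero (ι h))
        exact hF.le (by omega) this
      rw [e, map_add, hℓ1 i _ h2, zero_add]
    · intro i h
      show ℓ i (ι (g i * h) - 1) = ℓ i (ι h - 1) + 1
      have e : ι (g i * h) - 1 = (ι h - 1) + (ι (g i) - 1) + (ι (g i) - 1) * (ι h - 1) := by
        rw [map_mul, sub_mul, mul_sub, mul_one, one_mul]
        abel
      have h2 : (ι (g i) - 1) * (ι h - 1) ∈ fil k ι (i + 2) := by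
        have := hF.mul_mem (hg1 i) (sub_one_mem_fil (k := k) hι h)
        exact this
      rw [e, map_add, map_add, hℓ1 i _ h2, hℓ2, add_zero]

end Pool.Agent.Helper76.PG
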