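import Mathlib

/-!
# MP_b731ff_al: polynomial functions on groups and growth

`Pol n φ`: the function `φ` on the group `H` is a polynomial of degree at most `n`.
-/

set_option autoImplicit false

namespace Pool.Agent.Helper76.PG

open scoped Pointwise

variable {k H : Type*} [Field k] [Group H]

/-- polynomials of degree at most `n` -/
def Pol : ℕ → (H → k) → Prop
  | 0, φ => ∀ h, φ h = φ 1
  | n + 1, φ => ∀ g, Pol n (fun h => φ (g * h) - φ h)

theorem Pol.zero_fun (n : ℕ) : Pol n (fun _ : H => (0 : k)) := by
  induction n with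
  | zero => intro h; rfl
  | succ n ih =>
    intro g
    simpa using ih

theorem Pol.const (n : ℕ) (c : k) : Pol n (fun _ : H => c) := by
  cases n with
  | zero => intro h; rfl
  | succ n =>
    intro g
    simpa using (Pol.zero_fun (k := k) (H := H) n)

theorem Pol.add {n : ℕ} {φ ψ : H → k} (h₁ : Pol n φ) (h₂ : Pol n ψ) :
    Pol n (fun h => φ h + ψ h) := by
  induction n generalizing φ ψ with
  | zero =>
    intro h
    show φ h + ψ h = φ 1 + ψ 1
    rw [h₁ h, h₂ h]
  | succ n ih =>
    intro g
    have e : (fun h => φ (g * h) + ψ (g * h) - (φ h + ψ h))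
        = fun h => (φ (g * h) - φ h) + (ψ (g * h) - ψ h) := by
      funext h
      ring
    show Pol n (fun h => φ (g * h) + ψ (g * h) - (φ h + ψ h))
    rw [e]
    exact ih (h₁ g) (h₂ g)

theorem Pol.smul {n : ℕ} {φ : H → k} (c : k) (h₁ : Pol n φ) : Pol n (fun h => c * φ h) := by
  induction n generalizing φ with
  | zero =>
    intro h
    show c * φ h = c * φ 1
    rw [h₁ h]
  | succ n ih =>
    intro g
    have e : (fun h => c * φ (g * h) - c * φ h) = fun h => c * (φ (g * h) - φ h) := by
      funext h
      ring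
    show Pol n (fun h => c * φ (g * h) - c * φ h)
    rw [e]
    exact ih (h₁ g)

theorem Pol.succ {n : ℕ} {φ : H → k} (h₁ : Pol n φ) : Pol (n + 1) φ := by
  induction n generalizing φ with
  | zero =>
    intro g h
    show φ (g * h) - φ h = φ (g * 1) - φ 1
    rw [h₁ (g * h), h₁ h, h₁ (g * 1)]
  | succ n ih =>
    intro g
    exact ih (h₁ g)

theorem Pol.mono {m n : ℕ} (hmn : m ≤ n) {φ : H → k} (h₁ : Pol m φ) : Pol n φ := by
  induction hmn with
  | refl => exact h₁
  | step _ ih => exact ih.succ

theorem Pol.translate {n : ℕ} {φ : H → k} (g : H) (h₁ : Pol n φ) :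
    Pol n (fun h => φ (g * h)) := by
  cases n with
  | zero =>
    intro h
    show φ (g * h) = φ (g * 1)
    rw [h₁ (g * h), h₁ (g * 1)]
  | succ n =>
    have e : (fun h => φ (g * h)) = fun h => φ h + (φ (g * h) - φ h) := by
      funext h
      ring
    rw [e]
    exact h₁.add (h₁ g).succ

theorem Pol.mul {a b : ℕ} {φ ψ : H → k} (h₁ : Pol a φ) (h₂ : Pol b ψ) :
    Pol (a + b) (fun h => φ h * ψ h) := by
  obtain ⟨n, hn⟩ : ∃ n, a + b = n := ⟨_, rfl⟩
  induction n generalizing a b φ ψ with
  | zero =>
    obtain ⟨rfl, rfl⟩ : a = 0 ∧ b = 0 := by omega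
    intro h
    show φ h * ψ h = φ 1 * ψ 1
    rw [h₁ h, h₂ h]
  | succ n ih =>
    rcases Nat.eq_zero_or_pos a with ha | ha
    · subst ha
      have e : (fun h => φ h * ψ h) = fun h => φ 1 * ψ h := by
        funext h
        rw [h₁ h]
      rw [e, Nat.zero_add]
      exact h₂.smul _
    rcases Nat.eq_zero_or_pos b with hb | hb
    · subst hb
      have e : (fun h => φ h * ψ h) = fun h => ψ 1 * φ h := by
        funext h
        rw [h₂ h, mul_comm]
      rw [e, Nat.add_zero]
      exact h₁.smul _
    obtain ⟨a, rfl⟩ : ∃ a', a = a' + 1 := ⟨a - 1, by omega⟩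
    obtain ⟨b, rfl⟩ : ∃ b', b = b' + 1 := ⟨b - 1, by omega⟩
    have hab : a + 1 + (b + 1) = (a + (b + 1)) + 1 := by omega
    rw [hab]
    intro g
    have e : (fun h => φ (g * h) * ψ (g * h) - φ h * ψ h)
        = fun h => (φ (g * h) - φ h) * ψ (g * h) + φ h * (ψ (g * h) - ψ h) := by
      funext h
      ring
    show Pol (a + (b + 1)) (fun h => φ (g * h) * ψ (g * h) - φ h * ψ h)
    rw [e]
    refine Pol.add ?_ ?_
    · exact ih (h₁ g) (h₂.translate g) (by omega)
    · have := ih (a := a + 1) (b := b) h₁ (h₂ g) (by omega)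
      rwa [show a + 1 + b = a + (b + 1) by omega] at this

theorem Pol.prod {φ : ℕ → H → k} (hφ : ∀ i, Pol i (φ i)) (T : Finset ℕ) :
    Pol (∑ i ∈ T, i) (fun h => ∏ i ∈ T, φ i h) := by
  classical
  induction T using Finset.induction_on with
  | empty => simpa using Pol.const (k := k) (H := H) 0 1
  | insert a T ha ih =>
    rw [Finset.sum_insert ha]
    have e : (fun h => ∏ i ∈ insert a T, φ i h) = fun h => φ a h * ∏ i ∈ T, φ i h := by
      funext h
      rw [Finset.prod_insert ha]
    rw [e]
    exact (hφ a).mul ih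

theorem Pol.sum {ι : Type*} {n : ℕ} {φ : ι → H → k} (T : Finset ι) (hφ : ∀ i ∈ T, Pol n (φ i)) :
    Pol n (fun h => ∑ i ∈ T, φ i h) := by
  classical
  induction T using Finset.induction_on with
  | empty => simpa using Pol.zero_fun (k := k) (H := H) n
  | insert a T ha ih =>
    have e : (fun h => ∑ i ∈ insert a T, φ i h) = fun h => φ a h + ∑ i ∈ T, φ i h := by
      funext h
      rw [Finset.sum_insert ha]
    rw [e]
    exact (hφ a (Finset.mem_insert_self _ _)).add
      (ih (fun i hi => hφ i (Finset.mem_insert_of_mem hi)))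

/-- a polynomial of degree `n` which vanishes on the ball of radius `n` is zero -/
theorem Pol.eq_zero [DecidableEq H] {S : Finset H} (h1 : (1 : H) ∈ S)
    (hgen : Subgroup.closure (S : Set H) = ⊤) {n : ℕ} {φ : H → k} (hφ : Pol n φ)
    (h0 : ∀ h ∈ S ^ n, φ h = 0) : ∀ h, φ h = 0 := by
  induction n generalizing φ with
  | zero =>
    intro h
    rw [hφ h]
    exact h0 1 (by rw [pow_zero]; exact Finset.mem_one.2 rfl)
  | succ n ih =>
    have hs : ∀ s ∈ S, ∀ h, φ (s * h) = φ h := by
      intro s hs h
      have := ih (hφ s) (fun h hh => by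
        have e1 : φ (s * h) = 0 := h0 _ (by
          rw [pow_succ']
          exact Finset.mul_mem_mul hs hh)
        have e2 : φ h = 0 := h0 _ (Finset.pow_subset_pow_right h1 (Nat.le_succ n) hh)
        rw [e1, e2, sub_zero]) h
      exact sub_eq_zero.1 this
    have hall : ∀ g : H, ∀ h, φ (g * h) = φ h := by
      intro g
      have hg : g ∈ Subgroup.closure (S : Set H) := hgen ▸ Subgroup.mem_top g
      refine Subgroup.closure_induction (p := fun x _ => ∀ h, φ (x * h) = φ h) ?_ ?_ ?_ ?_ hg
      · intro x hx h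
        exact hs x hx h
      · intro h
        rw [one_mul]
      · intro x y _ _ hx hy h
        rw [mul_assoc, hx, hy]
      · intro x _ hx h
        have := hx (x⁻¹ * h)
        rw [mul_inv_cancel_left] at this
        exact this.symm
    intro h
    have := hall h 1
    rw [mul_one] at this
    rw [this]
    exact h0 1 (Finset.pow_subset_pow_right h1 (Nat.zero_le _) (by
      rw [pow_zero]
      exact Finset.mem_one.2 rfl))

/-- linear independence of the products -/
theorem indep {φ : ℕ → H → k} {g : ℕ → H} (hinv : ∀ i j, i < j → ∀ h, φ i (g j * h) = φ i h)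
    (hone : ∀ i, ∀ h, φ i (g i * h) = φ i h + 1) (m : ℕ) (c : Finset ℕ → k)
    (h0 : ∀ h, ∑ T ∈ (Finset.range m).powerset, c T * ∏ i ∈ T, φ i h = 0) :
    ∀ T ∈ (Finset.range m).powerset, c T = 0 := by
  classical
  induction m generalizing c with
  | zero =>
    intro T hT
    have h1 := h0 1
    simp only [Finset.range_zero, Finset.powerset_empty, Finset.sum_singleton,
      Finset.prod_empty, mul_one, Finset.mem_singleton] at h1 hT
    rw [hT]
    exact h1
  | succ m ih =>
    have hm : m ∉ Finset.range m := Finset.notMem_range_self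
    -- split the sum
    have hsplit : ∀ h, ∑ T ∈ (Finset.range m).powerset, c T * ∏ i ∈ T, φ i h
        + φ m h * ∑ T ∈ (Finset.range m).powerset, c (insert m T) * ∏ i ∈ T, φ i h = 0 := by
      intro h
      have h1 := h0 h
      rw [Finset.range_add_one, Finset.sum_powerset_insert hm] at h1
      rw [← h1]
      congr 1
      rw [Finset.mul_sum]
      refine Finset.sum_congr rfl ?_
      intro T hT
      have hmT : m ∉ T := fun h => hm (Finset.mem_powerset.1 hT h)
      rw [Finset.prod_insert hmT]
      ring
    have hprod : ∀ h, ∀ T ∈ (Finset.range m).powerset,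
        ∏ i ∈ T, φ i (g m * h) = ∏ i ∈ T, φ i h := by
      intro h T hT
      refine Finset.prod_congr rfl ?_
      intro i hi
      exact hinv i m (Finset.mem_range.1 (Finset.mem_powerset.1 hT hi)) h
    have h2 : ∀ h, ∑ T ∈ (Finset.range m).powerset, c (insert m T) * ∏ i ∈ T, φ i h = 0 := by
      intro h
      have e1 := hsplit h
      have e2 := hsplit (g m * h)
      rw [hone m h] at e2
      have f1 : ∑ T ∈ (Finset.range m).powerset, c T * ∏ i ∈ T, φ i (g m * h)
          = ∑ T ∈ (Finset.range m).powerset, c T * ∏ i ∈ T, φ i h :=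
        Finset.sum_congr rfl (fun T hT => by rw [hprod h T hT])
      have f2 : ∑ T ∈ (Finset.range m).powerset, c (insert m T) * ∏ i ∈ T, φ i (g m * h)
          = ∑ T ∈ (Finset.range m).powerset, c (insert m T) * ∏ i ∈ T, φ i h :=
        Finset.sum_congr rfl (fun T hT => by rw [hprod h T hT])
      rw [f1, f2] at e2
      linear_combination e2 - e1
    have h3 := ih (fun T => c (insert m T)) h2
    have h4 : ∀ h, ∑ T ∈ (Finset.range m).powerset, c T * ∏ i ∈ T, φ i h = 0 := by
      intro h
      have e1 := hsplit h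
      rw [h2 h, mul_zero, add_zero] at e1
      exact e1
    have h5 := ih c h4
    intro T hT
    rw [Finset.range_add_one, Finset.mem_powerset] at hT
    by_cases hmT : m ∈ T
    · have h6 : insert m (T.erase m) = T := Finset.insert_erase hmT
      have h7 := h3 (T.erase m) (Finset.mem_powerset.2 (by
        intro x hx
        have hx' := Finset.mem_erase.1 hx
        exact (Finset.mem_insert.1 (hT hx'.2)).resolve_left hx'.1))
      simp only [h6] at h7
      exact h7
    · exact h5 T (Finset.mem_powerset.2 (fun x hx =>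
        (Finset.mem_insert.1 (hT hx)).resolve_left (fun h => hmT (h ▸ hx))))

/-- **the growth lemma** -/
theorem two_pow_le [DecidableEq H] {S : Finset H} (h1 : (1 : H) ∈ S)
    (hgen : Subgroup.closure (S : Set H) = ⊤) {φ : ℕ → H → k} {g : ℕ → H}
    (hφ : ∀ i, Pol (i + 1) (φ i)) (hinv : ∀ i j, i < j → ∀ h, φ i (g j * h) = φ i h)
    (hone : ∀ i, ∀ h, φ i (g i * h) = φ i h + 1) (m n : ℕ) (hmn : m * m ≤ n) :
    2 ^ m ≤ (S ^ n).card := by
  classical
  let ψ : ((Finset.range m).powerset : Finset (Finset ℕ)) → ((S ^ n : Finset H) → k) :=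
    fun T h => ∏ i ∈ (T : Finset ℕ), φ i h
  have hdeg : ∀ T ∈ (Finset.range m).powerset, Pol n (fun h => ∏ i ∈ T, φ i h) := by
    intro T hT
    have h2 : ∀ T : Finset ℕ, Pol (∑ i ∈ T, (i + 1)) (fun h => ∏ i ∈ T, φ i h) := by
      intro T
      induction T using Finset.induction_on with
      | empty => simpa using Pol.const (k := k) (H := H) 0 1
      | insert a T ha ih =>
        rw [Finset.sum_insert ha]
        have e : (fun h => ∏ i ∈ insert a T, φ i h) = fun h => φ a h * ∏ i ∈ T, φ i h := by
          funext h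
          rw [Finset.prod_insert ha]
        rw [e]
        exact (hφ a).mul ih
    refine (h2 T).mono (le_trans ?_ hmn)
    calc ∑ i ∈ T, (i + 1) ≤ ∑ i ∈ Finset.range m, (i + 1) :=
          Finset.sum_le_sum_of_subset (Finset.mem_powerset.1 hT)
      _ ≤ ∑ _i ∈ Finset.range m, m :=
          Finset.sum_le_sum (fun i hi => Finset.mem_range.1 hi)
      _ = m * m := by simp
  have hli : LinearIndependent k ψ := by
    rw [Fintype.linearIndependent_iff]
    intro c hc
    let c' : Finset ℕ → k := fun T =>
      if h : T ∈ (Finset.range m).powerset then c ⟨T, h⟩ else 0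
    have hsum : ∀ h, ∑ T ∈ (Finset.range m).powerset, c' T * ∏ i ∈ T, φ i h
        = ∑ T : ((Finset.range m).powerset : Finset (Finset ℕ)), c T * ∏ i ∈ (T : Finset ℕ), φ i h := by
      intro h
      rw [← Finset.sum_coe_sort]
      refine Finset.sum_congr rfl ?_
      intro T _
      have : c' (T : Finset ℕ) = c T := by
        simp only [c', dif_pos T.2]
      rw [this]
    have hpol : Pol n (fun h => ∑ T ∈ (Finset.range m).powerset, c' T * ∏ i ∈ T, φ i h) :=
      Pol.sum _ (fun T hT => (hdeg T hT).smul _)
    have hz := hpol.eq_zero h1 hgen (by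
      intro h hh
      show ∑ T ∈ (Finset.range m).powerset, c' T * ∏ i ∈ T, φ i h = 0
      rw [hsum]
      have := congrFun hc ⟨h, hh⟩
      simpa [ψ, Finset.sum_apply] using this)
    have h3 := indep hinv hone m c' hz
    intro T
    have h4 := h3 T T.2
    have : c' (T : Finset ℕ) = c T := by
      simp only [c', dif_pos T.2]
    rwa [this] at h4
  have h5 := hli.fintype_card_le_finrank
  rw [Module.finrank_fintype_fun_eq_card, Fintype.card_coe, Fintype.card_coe,
    Finset.card_powerset, Finset.card_range] at h5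
  exact h5

end Pool.Agent.Helper76.PG
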