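import Pool.Agent.Helper76.PG.Filt
import Pool.Agent.Helper76.PG.Poly

/-!
# MP_b731ff_al: the augmentation filtration of a group algebra
-/

set_option autoImplicit false

namespace Pool.Agent.Helper76.PG

open Submodule
open scoped Pointwise

section Aug

variable {k A H : Type*} [Field k] [Ring A] [Algebra k A] [Group H]

/-- the augmentation ideal -/
def aug (k : Type*) {A H : Type*} [Field k] [Ring A] [Algebra k A] [Group H] (ι : H →* A) :
    Submodule k A :=
  span k {a | ∃ g : H, a = ι g - 1}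

/-- the augmentation filtration -/
def fil (k : Type*) {A H : Type*} [Field k] [Ring A] [Algebra k A] [Group H] (ι : H →* A) :
    ℕ → Submodule k A
  | 0 => ⊤
  | n + 1 => aug k ι * fil k ι n

variable {ι : H →* A}

theorem sub_one_mem (g : H) : ι g - 1 ∈ aug k ι := subset_span ⟨g, rfl⟩

theorem top_mul_aug (hι : span k (Set.range ι) = ⊤) : ⊤ * aug k ι ≤ aug k ι := by
  rw [← hι, aug, span_mul_span, span_le]
  rintro _ ⟨_, ⟨g, rfl⟩, _, ⟨h, rfl⟩, rfl⟩
  have e : ι g * (ι h - 1) = (ι (g * h) - 1) - (ι g - 1) := by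
    rw [map_mul]
    noncomm_ring
  show ι g * (ι h - 1) ∈ span k {a | ∃ g : H, a = ι g - 1}
  rw [e]
  exact sub_mem (subset_span ⟨_, rfl⟩) (subset_span ⟨_, rfl⟩)

theorem aug_mul_top (hι : span k (Set.range ι) = ⊤) : aug k ι * ⊤ ≤ aug k ι := by
  rw [← hι, aug, span_mul_span, span_le]
  rintro _ ⟨_, ⟨h, rfl⟩, _, ⟨g, rfl⟩, rfl⟩
  have e : (ι h - 1) * ι g = (ι (h * g) - 1) - (ι g - 1) := by
    rw [map_mul]
    noncomm_ring
  show (ι h - 1) * ι g ∈ span k {a | ∃ g : H, a = ι g - 1}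
  rw [e]
  exact sub_mem (subset_span ⟨_, rfl⟩) (subset_span ⟨_, rfl⟩)

theorem fil_anti (n : ℕ) : fil k ι (n + 1) ≤ fil k ι n := by
  induction n with
  | zero => exact le_top
  | succ n ih => exact mul_le_mul' le_rfl ih

theorem top_mul_fil (hι : span k (Set.range ι) = ⊤) (n : ℕ) : ⊤ * fil k ι n ≤ fil k ι n := by
  cases n with
  | zero => exact le_top
  | succ n =>
    show ⊤ * (aug k ι * fil k ι n) ≤ aug k ι * fil k ι n
    rw [← mul_assoc]
    exact mul_le_mul' (top_mul_aug hι) le_rfl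

theorem fil_mul (hι : span k (Set.range ι) = ⊤) (a b : ℕ) :
    fil k ι a * fil k ι b ≤ fil k ι (a + b) := by
  induction a with
  | zero =>
    rw [Nat.zero_add]
    exact top_mul_fil hι b
  | succ a ih =>
    have e : a + 1 + b = (a + b) + 1 := by omega
    rw [e]
    show aug k ι * fil k ι a * fil k ι b ≤ aug k ι * fil k ι (a + b)
    rw [mul_assoc]
    exact mul_le_mul' le_rfl ih

theorem fil_one (hι : span k (Set.range ι) = ⊤) : fil k ι 1 = aug k ι := by
  show aug k ι * ⊤ = aug k ι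
  refine le_antisymm (aug_mul_top hι) ?_
  intro x hx
  have := Submodule.mul_mem_mul hx (Submodule.mem_top (x := (1 : A)))
  rwa [mul_one] at this

theorem sub_one_mem_fil (hι : span k (Set.range ι) = ⊤) (g : H) : ι g - 1 ∈ fil k ι 1 := by
  rw [fil_one hι]
  exact sub_one_mem g

/-- the augmentation filtration is a filtration generated in degree one -/
theorem filt (hι : span k (Set.range ι) = ⊤) (S : Set H)
    (hS : Subgroup.closure S = ⊤) : Filt (fil k ι) ((fun s => ι s - 1) '' S) := by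
  have hgen1 : aug k ι ≤ span k ((fun s => ι s - 1) '' S) ⊔ fil k ι 2 := by
    rw [aug, span_le]
    rintro _ ⟨g, rfl⟩
    have hg : g ∈ Subgroup.closure S := hS ▸ Subgroup.mem_top g
    have h2 : ∀ x y : H, (ι x - 1) * (ι y - 1) ∈ fil k ι 2 := by
      intro x y
      have := fil_mul hι 1 1 (Submodule.mul_mem_mul (sub_one_mem_fil (k := k) hι x)
        (sub_one_mem_fil (k := k) hι y))
      exact this
    refine Subgroup.closure_induction
      (p := fun x _ => ι x - 1 ∈ span k ((fun s => ι s - 1) '' S) ⊔ fil k ι 2) ?_ ?_ ?_ ?_ hg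
    · intro x hx
      exact Submodule.mem_sup_left (subset_span ⟨x, hx, rfl⟩)
    · rw [map_one, sub_self]
      exact Submodule.zero_mem _
    · intro x y _ _ hx hy
      have e : ι (x * y) - 1 = (ι x - 1) + (ι y - 1) + (ι x - 1) * (ι y - 1) := by
        rw [map_mul]
        noncomm_ring
      rw [e]
      exact Submodule.add_mem _ (Submodule.add_mem _ hx hy) (Submodule.mem_sup_right (h2 x y))
    · intro x _ hx
      have e : ι x⁻¹ - 1 = -(ι x - 1) - (ι x - 1) * (ι x⁻¹ - 1) := by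
        have h : ι x * ι x⁻¹ = 1 := by rw [← map_mul, mul_inv_cancel, map_one]
        have : (ι x - 1) * (ι x⁻¹ - 1) = ι x * ι x⁻¹ - ι x - ι x⁻¹ + 1 := by noncomm_ring
        rw [this, h]
        abel
      rw [e]
      exact Submodule.sub_mem _ (Submodule.neg_mem _ hx) (Submodule.mem_sup_right (h2 x x⁻¹))
  refine ⟨fil_anti, fil_mul hι, le_rfl, ?_, ?_, ?_, ?_⟩
  · show (⊤ : Submodule k A) ≤ _
    rw [← hι, span_le]
    rintro _ ⟨g, rfl⟩
    have e : ι g = 1 + (ι g - 1) := by abel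
    rw [SetLike.mem_coe, e]
    exact Submodule.add_mem _ (Submodule.mem_sup_left (subset_span rfl))
      (Submodule.mem_sup_right (sub_one_mem_fil hι g))
  · rw [fil_one hι]
    exact hgen1
  · intro w
    show aug k ι * fil k ι w ≤ _
    refine (mul_le_mul' hgen1 le_rfl).trans ?_
    rw [Submodule.sup_mul]
    refine sup_le_sup le_rfl ?_
    have := fil_mul (k := k) hι 2 w
    rwa [Nat.add_comm 2 w] at this
  · rintro _ ⟨s, _, rfl⟩
    exact sub_one_mem_fil hι s

/-- Lie monomials are leading forms of group commutators -/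
theorem exists_comm (hι : span k (Set.range ι) = ⊤) (S : Set H)
    (hS : Subgroup.closure S = ⊤) (n : ℕ) :
    ∀ z ∈ Zs ((fun s => ι s - 1) '' S) n, ∃ g : H, ι g - 1 - z ∈ fil k ι (n + 2) := by
  have hF := filt (k := k) hι S hS
  induction n with
  | zero =>
    rintro _ ⟨s, _, rfl⟩
    exact ⟨s, by simp⟩
  | succ n ih =>
    rintro _ ⟨z, hz, _, ⟨s, hs, rfl⟩, rfl⟩
    obtain ⟨g, hg⟩ := ih z hz
    have hzF := hF.Zs_sub n hz
    have hgF : ι g - 1 ∈ fil k ι (n + 1) := by
      have := add_mem (hF.anti _ hg) hzF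
      rwa [sub_add_cancel] at this
    refine ⟨g * s * g⁻¹ * s⁻¹, ?_⟩
    set c := (ι g - 1) * (ι s - 1) - (ι s - 1) * (ι g - 1) with hc
    have hcF : c ∈ fil k ι (n + 2) := by
      refine sub_mem ?_ ?_
      · have := hF.mul_mem hgF (sub_one_mem_fil (k := k) hι s)
        exact this
      · have := hF.mul_mem (sub_one_mem_fil (k := k) hι s) hgF
        rwa [show 1 + (n + 1) = n + 2 by omega] at this
    have e1 : ι (g * s * g⁻¹ * s⁻¹) - 1 = c + c * (ι (g⁻¹ * s⁻¹) - 1) := by
      have h1 : c = ι (g * s) - ι (s * g) := by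
        rw [hc, map_mul, map_mul]
        noncomm_ring
      have h2 : ι (g * s * g⁻¹ * s⁻¹) = ι (g * s) * ι (g⁻¹ * s⁻¹) := by
        rw [← map_mul]
        congr 1
        group
      have h3 : ι (s * g) * ι (g⁻¹ * s⁻¹) = 1 := by
        rw [← map_mul, ← map_one ι]
        congr 1
        group
      have h4 : c * (ι (g⁻¹ * s⁻¹) - 1) = ι (g * s) * ι (g⁻¹ * s⁻¹)
          - ι (s * g) * ι (g⁻¹ * s⁻¹) - c := by
        rw [h1]
        noncomm_ring
      rw [h4, h2, h3]
      abel
    have e2 : c - (z * (ι s - 1) - (ι s - 1) * z)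
        = (ι g - 1 - z) * (ι s - 1) - (ι s - 1) * (ι g - 1 - z) := by
      rw [hc]
      noncomm_ring
    have e3 : ι (g * s * g⁻¹ * s⁻¹) - 1 - (z * (ι s - 1) - (ι s - 1) * z)
        = (ι g - 1 - z) * (ι s - 1) - (ι s - 1) * (ι g - 1 - z) + c * (ι (g⁻¹ * s⁻¹) - 1) := by
      rw [e1, ← e2]
      abel
    show ι (g * s * g⁻¹ * s⁻¹) - 1 - (z * (ι s - 1) - (ι s - 1) * z) ∈ fil k ι (n + 1 + 2)
    rw [e3]
    refine add_mem (sub_mem ?_ ?_) ?_
    · have := hF.mul_mem hg (sub_one_mem_fil (k := k) hι s)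
      exact this
    · have := hF.mul_mem (sub_one_mem_fil (k := k) hι s) hg
      rwa [show 1 + (n + 2) = n + 1 + 2 by omega] at this
    · have := hF.mul_mem hcF (sub_one_mem_fil (k := k) hι (g⁻¹ * s⁻¹))
      exact this

/-- powers of congruent elements are congruent -/
theorem pow_sub_pow_mem {F : ℕ → Submodule k A} {X : Set A} (hF : Filt F X) {a b : A} {d : ℕ}
    (ha : a ∈ F d) (hb : b ∈ F d) (hab : a - b ∈ F (d + 1)) (m : ℕ) :
    a ^ m - b ^ m ∈ F (d * m + 1) := by
  induction m with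
  | zero => simp
  | succ m ih =>
    have e : a ^ (m + 1) - b ^ (m + 1) = a ^ m * (a - b) + (a ^ m - b ^ m) * b := by
      rw [pow_succ, pow_succ]
      noncomm_ring
    rw [e]
    refine add_mem ?_ ?_
    · have := hF.mul_mem (hF.pow_mem ha m) hab
      rwa [show d * m + (d + 1) = d * (m + 1) + 1 by ring] at this
    · have := hF.mul_mem ih hb
      rwa [show d * m + 1 + d = d * (m + 1) + 1 by ring] at this

/-- Lie monomials are nil if the group is a `p`-group -/
theorem nil_of_pgroup (p : ℕ) [Fact p.Prime] [CharP A p] (hp : IsPGroup p H)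
    (hι : span k (Set.range ι) = ⊤) (S : Set H)
    (hS : Subgroup.closure S = ⊤) (n : ℕ) :
    ∀ z ∈ Zs ((fun s => ι s - 1) '' S) n, ∃ K : ℕ, z ^ K ∈ fil k ι ((n + 1) * K + 1) := by
  intro z hz
  have hF := filt (k := k) hι S hS
  obtain ⟨g, hg⟩ := exists_comm hι S hS n z hz
  have hzF := hF.Zs_sub n hz
  have hgF : ι g - 1 ∈ fil k ι (n + 1) := by
    have := add_mem (hF.anti _ hg) hzF
    rwa [sub_add_cancel] at this
  obtain ⟨m, hm⟩ := hp g
  refine ⟨p ^ m, ?_⟩
  have h1 : (ι g - 1) ^ p ^ m = 0 := by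
    rw [sub_pow_char_pow_of_commute _ _ (Commute.one_right _), one_pow, ← map_pow, hm, map_one,
      sub_self]
  have h2 := pow_sub_pow_mem hF hgF hzF hg (p ^ m)
  rw [h1, zero_sub] at h2
  have := neg_mem h2
  rwa [neg_neg] at this

end Aug

end Pool.Agent.Helper76.PG
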