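import Pool.Agent.Helper76.PG.Gap
import Pool.Agent.Helper76.WM.Contract

/-!
# MP_b731ff_al: periodic residually finite `{2, p}`-groups with the weak minimum condition and
orbital growth slower than `2 ^ sqrt n`
-/

set_option autoImplicit false

namespace Pool.Agent.Helper76.PG

open Subgroup (closure centralizer)
open scoped Pointwise
open Pool.Agent.Helper76.WM (FF orbit_lemma conj_pairs)

/-- orbital growth `o(2 ^ sqrt n)` along a sequence -/
def SlowOrb (G X : Type*) [Group G] [MulAction G X] : Prop :=
  ∀ S : Set G, S.Finite → ∀ K : ℕ, ∃ n : ℕ,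
    ∀ x : X, K * ((fun g : G => g • x) '' (S ^ n)).ncard < 2 ^ Nat.sqrt n

theorem false_of_slowOrb {H X : Type*} [Group H] [MulAction H X] [Infinite H] [Group.FG H]
    (hFF : FF H) (p : ℕ) [Fact p.Prime] (hpg : IsPGroup p H)
    (hRF : ∀ g : H, g ≠ 1 → ∃ N : Subgroup H, N.Normal ∧ N.index ≠ 0 ∧ g ∉ N)
    (hfaith : ∀ g : H, (∀ x : X, g • x = x) → g = 1) (horb : SlowOrb H X) : False := by
  classical
  obtain ⟨T, hT⟩ := (Group.fg_def (G := H)).1 inferInstance
  set S : Finset H := insert 1 T with hS
  have h1 : (1 : H) ∈ S := Finset.mem_insert_self _ _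
  have hgen : closure (S : Set H) = ⊤ := by
    rw [eq_top_iff, ← hT]
    refine Subgroup.closure_mono ?_
    intro t ht
    rw [hS, Finset.coe_insert]
    exact Set.mem_insert_of_mem _ ht
  obtain ⟨K, hK⟩ := orbit_lemma (X := X) hFF hfaith
  obtain ⟨n, hn⟩ := horb (S : Set H) S.finite_toSet K
  obtain ⟨x, hx⟩ := hK (S ^ n)
  have h2 := hn x
  have h3 : ((fun g : H => g • x) '' ((S : Set H) ^ n)).ncard
      = ((S ^ n).image (fun g => g • x)).card := by
    rw [← Set.ncard_coe_finset, Finset.coe_image, Finset.coe_pow]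
  rw [h3] at h2
  have h4 := gap p hpg hRF h1 hgen (Nat.sqrt n) n (Nat.sqrt_le n)
  omega

/-- **main theorem for `{2, p}`-groups** -/
theorem finite_of_slowOrb (G X : Type*) [Group G] [MulAction G X] (p : ℕ) (hp : p.Prime)
    (htor : ∀ g : G, ∃ a b : ℕ, g ^ (2 ^ a * p ^ b) = 1)
    (hRF : ∀ g : G, g ≠ 1 → ∃ N : Subgroup G, N.Normal ∧ N.index ≠ 0 ∧ g ∉ N)
    (hmin : ∀ H : ℕ → Subgroup G, Antitone H →
        ∃ n : ℕ, ∀ m : ℕ, n ≤ m → ((H (m + 1)).subgroupOf (H m)).index ≠ 0)
    (hfaith : ∀ g : G, (∀ x : X, g • x = x) → g = 1) (horb : SlowOrb G X) : Finite G := by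
  classical
  have : Fact p.Prime := ⟨hp⟩
  have htor0 : ∀ g : G, IsOfFinOrder g := by
    intro g
    obtain ⟨a, b, hab⟩ := htor g
    exact isOfFinOrder_iff_pow_eq_one.2 ⟨2 ^ a * p ^ b, by
      have := hp.pos
      positivity, hab⟩
  by_contra hcon
  rw [not_finite_iff_infinite] at hcon
  obtain ⟨q, x, g, H, -, -, -, hH, hHinf, hHFF, hHodd, -, -⟩ :=
    conj_pairs G hcon htor0 hRF hmin
  have hfg : Group.FG H := by
    rw [Group.fg_iff_subgroup_fg, hH]
    exact ⟨{x, g⁻¹ * x * g}, by simp⟩
  have hpg : IsPGroup p H := by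
    intro h
    obtain ⟨a, b, hab⟩ := htor h
    refine ⟨b, ?_⟩
    have h1 : orderOf (h : G) ∣ 2 ^ a * p ^ b := orderOf_dvd_of_pow_eq_one hab
    have h2 : Nat.Coprime (orderOf (h : G)) (2 ^ a) :=
      Nat.Coprime.pow_right a (Nat.coprime_two_right.2 (hHodd h h.2))
    have h3 : orderOf (h : G) ∣ p ^ b := h2.dvd_of_dvd_mul_left h1
    have h4 : (h : G) ^ p ^ b = 1 := orderOf_dvd_iff_pow_eq_one.1 h3
    exact Subtype.ext h4
  have hRF' : ∀ g : H, g ≠ 1 → ∃ N : Subgroup H, N.Normal ∧ N.index ≠ 0 ∧ g ∉ N := by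
    intro g hg
    obtain ⟨N, hN, hNi, hgN⟩ := hRF g (fun h => hg (Subtype.ext h))
    have hfi : N.FiniteIndex := ⟨hNi⟩
    exact ⟨N.subgroupOf H, inferInstance, Subgroup.FiniteIndex.index_ne_zero, hgN⟩
  have hFF : FF H := by
    intro K
    have h1 := hHFF (K.map H.subtype) (Subgroup.map_subtype_le K)
    rcases h1 with h1 | h1
    · left
      exact Finite.of_injective _
        (K.equivMapOfInjective H.subtype H.subtype_injective).injective
    · right
      have h3 : (K.map H.subtype).subgroupOf H = K :=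
        Subgroup.comap_map_eq_self_of_injective H.subtype_injective K
      rw [Subgroup.relIndex, h3] at h1
      exact h1
  refine false_of_slowOrb (H := H) (X := X) hFF p hpg hRF' ?_ ?_
  · intro g hg
    exact Subtype.ext (hfaith g (fun x => hg x))
  · intro S hS K
    obtain ⟨n, hn⟩ := horb (H.subtype '' S) (hS.image _) K
    refine ⟨n, fun x => ?_⟩
    have h1 := hn x
    have h2 : ((fun g : H => g • x) '' (S ^ n))
        = ((fun g : G => g • x) '' ((H.subtype '' S) ^ n)) := by
      rw [← Set.image_pow, Set.image_image]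
      rfl
    rw [h2]
    exact h1

section Tree

variable {α G : Type*} [Finite α] [Group G] [MulAction G (List α)]

/-- groups of automorphisms of a rooted tree are residually finite -/
theorem rf_of_tree (hfaith : ∀ g : G, (∀ w : List α, g • w = w) → g = 1)
    (hlen : ∀ (g : G) (w : List α), (g • w).length = w.length) (g : G)
    (hg : g ≠ 1) : ∃ N : Subgroup G, N.Normal ∧ N.index ≠ 0 ∧ g ∉ N := by
  obtain ⟨w, hw⟩ : ∃ w : List α, g • w ≠ w := by
    by_contra hcon
    push Not at hcon
    exact hg (hfaith g hcon)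
  let V := {u : List α // u.length = w.length}
  have hV : Finite V := (List.finite_length_eq α w.length).to_subtype
  let f : G →* Equiv.Perm V :=
    { toFun := fun h =>
        { toFun := fun v => ⟨h • v.1, (hlen h v.1).trans v.2⟩
          invFun := fun v => ⟨h⁻¹ • v.1, (hlen h⁻¹ v.1).trans v.2⟩
          left_inv := fun v => Subtype.ext (inv_smul_smul h v.1)
          right_inv := fun v => Subtype.ext (smul_inv_smul h v.1) }
      map_one' := Equiv.ext (fun v => Subtype.ext (one_smul G v.1))
      map_mul' := fun a b => Equiv.ext (fun v => Subtype.ext (mul_smul a b v.1)) }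
  refine ⟨f.ker, inferInstance, ?_, ?_⟩
  · have : f.ker.FiniteIndex := inferInstance
    exact this.index_ne_zero
  · intro h
    rw [MonoidHom.mem_ker] at h
    have h1 : (f g ⟨w, rfl⟩ : V).1 = w := by rw [h]; rfl
    exact hw h1

/-- an element of prime order at least five fixes all words over at most four letters -/
theorem smul_eq_of_prime (hα : Nat.card α ≤ 4)
    (hlen : ∀ (g : G) (w : List α), (g • w).length = w.length)
    (hpre : ∀ (g : G) (v w : List α), (g • v) <+: (g • (v ++ w)))
    (p : ℕ) (hp : p.Prime) (hp5 : 5 ≤ p) (h : G) (hh : h ^ p = 1) (w : List α) :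
    h • w = w := by
  induction w using List.reverseRecOn with
  | nil => exact List.eq_nil_of_length_eq_zero (by rw [hlen]; rfl)
  | append_singleton v a ih =>
    have hpow : ∀ i : ℕ, (h ^ i) • v = v := by
      intro i
      induction i with
      | zero => rw [pow_zero, one_smul]
      | succ i hi => rw [pow_succ, mul_smul, ih, hi]
    have hmem : ∀ i : ℕ, (h ^ i) • (v ++ [a]) ∈ Set.range (fun b : α => v ++ [b]) := by
      intro i
      obtain ⟨u, hu⟩ := hpre (h ^ i) v [a]
      rw [hpow] at hu
      have h1 : u.length = 1 := by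
        have h2 := congrArg List.length hu
        rw [List.length_append, hlen, List.length_append] at h2
        simp only [List.length_cons, List.length_nil] at h2
        omega
      obtain ⟨b, hb⟩ := List.length_eq_one_iff.1 h1
      exact ⟨b, by rw [← hu, hb]⟩
    -- pigeonhole
    obtain ⟨i, j, hij, hj, heq⟩ : ∃ i j : ℕ, i < j ∧ j < 5 ∧
        (h ^ i) • (v ++ [a]) = (h ^ j) • (v ++ [a]) := by
      by_contra hcon
      push Not at hcon
      have hinj : Function.Injective (fun i : Fin 5 =>
          (⟨(h ^ (i : ℕ)) • (v ++ [a]), hmem i⟩ : Set.range (fun b : α => v ++ [b]))) := by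
        intro i j hij
        have h1 : (h ^ (i : ℕ)) • (v ++ [a]) = (h ^ (j : ℕ)) • (v ++ [a]) :=
          congrArg Subtype.val hij
        rcases lt_trichotomy (i : ℕ) j with h2 | h2 | h2
        · exact absurd h1 (hcon i j h2 j.2)
        · exact Fin.ext h2
        · exact absurd h1.symm (hcon j i h2 i.2)
      have h1 := Nat.card_le_card_of_injective _ hinj
      have h2 : Nat.card (Set.range (fun b : α => v ++ [b])) ≤ Nat.card α :=
        Finite.card_range_le _
      rw [Nat.card_fin] at h1
      exact absurd (h1.trans (h2.trans hα)) (by decide)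
    have h1 : Function.IsPeriodicPt (fun x : List α => h • x) (j - i) (v ++ [a]) := by
      rw [Function.IsPeriodicPt, Function.IsFixedPt, smul_iterate]
      show (h ^ (j - i)) • (v ++ [a]) = v ++ [a]
      have h2 : (h ^ i) • ((h ^ (j - i)) • (v ++ [a])) = (h ^ i) • (v ++ [a]) := by
        rw [← mul_smul, ← pow_add, Nat.add_sub_cancel' hij.le, heq]
      exact smul_left_cancel _ h2
    have h2 : Function.IsPeriodicPt (fun x : List α => h • x) p (v ++ [a]) := by
      rw [Function.IsPeriodicPt, Function.IsFixedPt, smul_iterate]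
      show (h ^ p) • (v ++ [a]) = v ++ [a]
      rw [hh, one_smul]
    have h3 := h1.gcd h2
    have h4 : (j - i).gcd p = 1 := by
      rw [Nat.gcd_comm]
      refine (Nat.Prime.coprime_iff_not_dvd hp).2 ?_
      intro hd
      have := Nat.le_of_dvd (by omega) hd
      omega
    rw [h4] at h3
    exact h3

/-- **main theorem for groups acting on a rooted tree with at most four edges down** -/
theorem finite_of_tree (hα : Nat.card α ≤ 4)
    (hfaith : ∀ g : G, (∀ w : List α, g • w = w) → g = 1)
    (hlen : ∀ (g : G) (w : List α), (g • w).length = w.length)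
    (hpre : ∀ (g : G) (v w : List α), (g • v) <+: (g • (v ++ w)))
    (htor : ∀ g : G, IsOfFinOrder g)
    (hmin : ∀ H : ℕ → Subgroup G, Antitone H →
        ∃ n : ℕ, ∀ m : ℕ, n ≤ m → ((H (m + 1)).subgroupOf (H m)).index ≠ 0)
    (horb : SlowOrb G (List α)) : Finite G := by
  refine finite_of_slowOrb G (List α) 3 Nat.prime_three ?_ (rf_of_tree hfaith hlen) hmin hfaith
    horb
  intro g
  have hpos := (htor g).orderOf_pos
  -- the order of `g` is not divisible by a prime larger than three
  have hprime : ∀ q : ℕ, q.Prime → q ∣ orderOf g → q = 2 ∨ q = 3 := by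
    intro q hq hd
    by_contra hcon
    push Not at hcon
    have h4 : q ≠ 4 := by
      rintro rfl
      exact absurd hq (by decide)
    have h5 : 5 ≤ q := by
      have := hq.two_le
      omega
    have h6 : g ^ (orderOf g / q) = 1 := by
      apply hfaith
      intro w
      refine smul_eq_of_prime hα hlen hpre q hq h5 _ ?_ w
      rw [← pow_mul, Nat.div_mul_cancel hd, pow_orderOf_eq_one]
    have h7 := Nat.le_of_dvd (Nat.div_pos (Nat.le_of_dvd hpos hd) hq.pos)
      (orderOf_dvd_of_pow_eq_one h6)
    have h8 := Nat.div_lt_self hpos hq.one_lt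
    omega
  obtain ⟨a, m, hm2, hm⟩ := Nat.exists_eq_two_pow_mul_odd hpos.ne'
  have hm3 : m = 3 ^ m.primeFactorsList.length := by
    refine Nat.eq_prime_pow_of_unique_prime_dvd ?_ ?_
    · rintro rfl
      exact absurd hm2 (by decide)
    · intro d hd hdm
      rcases hprime d hd (by rw [hm]; exact hdm.mul_left _) with h | h
      · rw [h] at hdm
        rw [← Nat.not_even_iff_odd, even_iff_two_dvd] at hm2
        exact absurd hdm hm2
      · exact h
  refine ⟨a, m.primeFactorsList.length, ?_⟩
  rw [← hm3, ← hm, pow_orderOf_eq_one]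

end Tree

end Pool.Agent.Helper76.PG
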