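import Pool.Agent.Helper76.PG.Grp

/-!
# MP_b731ff_al: the augmentation ideal of a finite `p`-group over the field with `p` elements is
nilpotent
-/

set_option autoImplicit false

namespace Pool.Agent.Helper76.PG

open Submodule

section

variable {k A H : Type*} [Field k] [Ring A] [Algebra k A] [Group H] {ι : H →* A}

theorem smul_mem_fil (hι : span k (Set.range ι) = ⊤) (W : ℕ) (g : H) {m : A}
    (hm : m ∈ fil k ι W) : ι g * m ∈ fil k ι W :=
  top_mul_fil hι W (Submodule.mul_mem_mul Submodule.mem_top hm)

/-- nilpotency for finite `p`-groups -/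
theorem exists_fil_eq_bot (p : ℕ) [Fact p.Prime] [Finite k] (hk : Nat.card k = p)
    [Module.Finite k A] (hp : IsPGroup p H) (hι : span k (Set.range ι) = ⊤) :
    ∃ W, fil k ι W = ⊥ := by
  classical
  have hanti : Antitone (fil k ι) := antitone_nat_of_succ_le fil_anti
  obtain ⟨W, hW⟩ := IsArtinian.monotone_stabilizes (R := k) (M := A)
    ⟨fun n => OrderDual.toDual (fil k ι n), fun a b hab => hanti hab⟩
  have hstab : fil k ι (W + 1) = fil k ι W := (hW (W + 1) (Nat.le_succ W)).symm
  refine ⟨W, ?_⟩
  by_contra hne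
  set M := fil k ι W with hM
  -- left multiplications on `M`
  let L : H → (M →ₗ[k] M) := fun g =>
    (LinearMap.mulLeft k (ι g)).restrict (fun m hm => smul_mem_fil hι W g hm)
  have hL : ∀ g (m : M), ((L g m : M) : A) = ι g * m := fun g m => rfl
  let act : MulAction H (Module.Dual k M) :=
    { smul := fun g ℓ => ℓ ∘ₗ L g⁻¹
      one_smul := by
        intro ℓ
        refine LinearMap.ext (fun m => ?_)
        show ℓ (L (1 : H)⁻¹ m) = ℓ m
        congr 1
        refine Subtype.ext ?_
        rw [hL, inv_one, map_one, one_mul]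
      mul_smul := by
        intro g h ℓ
        refine LinearMap.ext (fun m => ?_)
        show ℓ (L (g * h)⁻¹ m) = ℓ (L h⁻¹ (L g⁻¹ m))
        congr 1
        refine Subtype.ext ?_
        rw [hL, hL, hL, mul_inv_rev, map_mul, mul_assoc] }
  have hMfin : Module.Finite k M := inferInstance
  have hnt : Nontrivial M := (Submodule.nontrivial_iff_ne_bot).2 hne
  have hDfin : Finite (Module.Dual k M) := Module.finite_of_finite k
  have hdvd : p ∣ Nat.card (Module.Dual k M) := by
    rw [Module.natCard_eq_pow_finrank (K := k), hk]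
    refine dvd_pow_self p ?_
    rw [Subspace.dual_finrank_eq]
    exact (Module.finrank_pos (R := k) (M := M)).ne'
  obtain ⟨ℓ, hℓ, hℓ0⟩ := hp.exists_fixed_point_of_prime_dvd_card_of_fixed_point
    (Module.Dual k M) hdvd (a := 0) (by
      intro g
      refine LinearMap.ext (fun m => ?_)
      show (0 : Module.Dual k M) (L g⁻¹ m) = (0 : Module.Dual k M) m
      rfl)
  apply hℓ0
  symm
  refine LinearMap.ext (fun m => ?_)
  have hfix : ∀ g (m : M), ℓ (L g m) = ℓ m := by
    intro g m
    have h1 := hℓ g⁻¹
    have h2 : (g⁻¹ • ℓ) m = ℓ m := by rw [h1]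
    have h3 : (g⁻¹ • ℓ) m = ℓ (L g⁻¹⁻¹ m) := rfl
    rw [← h2, h3, inv_inv]
  have hle : M ≤ Submodule.map M.subtype (LinearMap.ker ℓ) := by
    calc M = aug k ι * M := hstab.symm
      _ ≤ _ := by
        refine Submodule.mul_le.2 (fun a ha m hm => ?_)
        have h1 : aug k ι ≤ (Submodule.map M.subtype (LinearMap.ker ℓ)).comap
            (LinearMap.mulRight k m) := by
          refine span_le.2 ?_
          rintro _ ⟨g, rfl⟩
          rw [SetLike.mem_coe, Submodule.mem_comap, LinearMap.mulRight_apply]
          refine ⟨L g ⟨m, hm⟩ - ⟨m, hm⟩, ?_, ?_⟩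
          · rw [SetLike.mem_coe, LinearMap.mem_ker, map_sub, hfix, sub_self]
          · show ((L g ⟨m, hm⟩ : M) : A) - m = (ι g - 1) * m
            rw [hL, sub_mul, one_mul]
        exact h1 ha
  obtain ⟨m', hm', he⟩ := hle m.2
  have : m' = m := Subtype.ext he
  rw [this] at hm'
  rw [LinearMap.zero_apply]
  exact hm'

end

end Pool.Agent.Helper76.PG
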